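import Mathlib
import Pool.Agent.Y131.QL.Par

/-!
# Quantum limits on flat tori, `d = 4` and `d = 5`: a gain of `log log (1/r)` at every small radius

Let `m_d(r)` be the infimum of `μ(B_r)/|B_r|` over all quantum limits `μ` of the flat torus
`ℝ^d/(2πℤ)^d`. For `d = 4` and `d = 5` there are `c, r₀ > 0` such that for all `r ∈ (0, r₀)`

  `m_d(r) ≤ exp(-c r^(3-d) log log (1/r))`.

So the two-sided behaviour `m_d(r) ≈ exp(-C r^(3-d))` fails at every small radius, for all
constants.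

Idea: for every large `T` there is `n ≤ (d-1) T²` such that the sphere of radius `√n` in `ℤ^(d-1)`
has at least `c T^(d-3) log log T` points (residue classes modulo the product of the odd primes
up to `c log T`, exact local counts, Mertens, a pigeonhole argument in a box of side about `T`).
A dimension count gives a trigonometric polynomial with these frequencies which vanishes to order
`c (T^(d-3) log log T)^(1/(d-2))` at the origin; `T` is then chosen of size
`r^(2-d) log log (1/r)`.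
-/

set_option autoImplicit false

open MeasureTheory Filter Topology
open scoped ContDiff

namespace Pool.Agent.Results.MP_9fa340_an.LogLogGain

/-- `0 < 2π` (needed for the measure on the circle `ℝ/2πℤ`). -/
instance factTwoPi : Fact (0 < 2 * Real.pi) := ⟨Real.two_pi_pos⟩

/-- The flat torus `𝕋^d = (ℝ/2πℤ)^d`; `volume` is Lebesgue measure, of total mass `(2π)^d`. -/
abbrev Torus (d : ℕ) : Type := Fin d → AddCircle (2 * Real.pi)

/-- The projection `ℝ^d → 𝕋^d`. -/
noncomputable def proj {d : ℕ} (x : EuclideanSpace ℝ (Fin d)) : Torus d :=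
  fun i => ((x i : ℝ) : AddCircle (2 * Real.pi))

/-- `u ∈ 𝓔_d(lam)`: `u` is a smooth function on `𝕋^d` with `-Δ u = lam² u`. -/
structure Eigen (d : ℕ) (lam : ℝ) (u : Torus d → ℂ) : Prop where
  smooth : ContDiff ℝ ∞ (fun x : EuclideanSpace ℝ (Fin d) => u (proj x))
  eq : ∀ x : EuclideanSpace ℝ (Fin d),
    -(Laplacian.laplacian (fun y : EuclideanSpace ℝ (Fin d) => u (proj y)) x) =
      ((lam ^ 2 : ℝ) : ℂ) * u (proj x)

/-- `μ` is a quantum limit: a finite measure on `𝕋^d` which is the weak limit of `|u_j|² dx` with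
`u_j ∈ 𝓔_d(lam_j)`, `lam_j ≥ 0`, `lam_j² ∈ ℕ`, `lam_j → ∞` and `|u_j|²` of mean value one. -/
def IsQuantumLimit (d : ℕ) (μ : Measure (Torus d)) : Prop :=
  IsFiniteMeasure μ ∧ ∃ (lam : ℕ → ℝ) (u : ℕ → Torus d → ℂ),
    (∀ j, 0 ≤ lam j ∧ ∃ n : ℕ, lam j ^ 2 = n) ∧ Tendsto lam atTop atTop ∧
    (∀ j, Eigen d (lam j) (u j)) ∧ (∀ j, ⨍ x, ‖u j x‖ ^ 2 = 1) ∧
    ∀ φ : C(Torus d, ℝ),
      Tendsto (fun j => ∫ x, φ x * ‖u j x‖ ^ 2) atTop (𝓝 (∫ x, φ x ∂μ))

/-- The ball `B_r = {|x| < r}`, viewed in `𝕋^d`. -/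
def ballT (d : ℕ) (r : ℝ) : Set (Torus d) :=
  proj '' Metric.ball (0 : EuclideanSpace ℝ (Fin d)) r

/-- `m_d(r)`: the infimum of `μ(B_r)/|B_r|` over all quantum limits `μ`. -/
noncomputable def mInf (d : ℕ) (r : ℝ) : ℝ :=
  sInf {t : ℝ | ∃ μ : Measure (Torus d), IsQuantumLimit d μ ∧
    t = (μ (ballT d r)).toReal / (volume (ballT d r)).toReal}

/-! ### characters -/

/-- the character `e^{i a·x}` of the torus -/
noncomputable def chi {d : ℕ} (a : Fin d → ℤ) (x : Torus d) : ℂ := ∏ i, fourier (a i) (x i)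

lemma chi_cont {d : ℕ} (a : Fin d → ℤ) : Continuous (chi a) := by
  unfold chi
  exact continuous_finsetProd _ (fun i _ => (fourier (a i)).continuous.comp (continuous_apply i))

lemma chi_norm {d : ℕ} (a : Fin d → ℤ) (x : Torus d) : ‖chi a x‖ = 1 := by
  unfold chi
  rw [norm_prod]
  refine Finset.prod_eq_one (fun i _ => ?_)
  rw [fourier_apply]
  exact Circle.norm_coe _

lemma chi_conj {d : ℕ} (a b : Fin d → ℤ) (x : Torus d) :
    chi a x * (starRingEnd ℂ) (chi b x) = chi (a - b) x := by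
  unfold chi
  rw [map_prod, ← Finset.prod_mul_distrib]
  refine Finset.prod_congr rfl (fun i _ => ?_)
  rw [← fourier_neg, ← fourier_add]
  rfl

lemma chi_proj {d : ℕ} (a : Fin d → ℤ) (y : EuclideanSpace ℝ (Fin d)) :
    chi a (proj y) = Complex.exp (Complex.I * ∑ i, (a i : ℂ) * ((y i : ℝ) : ℂ)) := by
  unfold chi proj
  rw [Finset.mul_sum, Complex.exp_sum]
  refine Finset.prod_congr rfl (fun i _ => ?_)
  rw [fourier_coe_apply]
  congr 1
  have : (Real.pi : ℂ) ≠ 0 := by exact_mod_cast Real.pi_ne_zero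
  push_cast
  field_simp

lemma int_fourier (n : ℤ) (hn : n ≠ 0) :
    ∫ x : AddCircle (2 * Real.pi), fourier n x = 0 := by
  have h1 : ∀ x : AddCircle (2 * Real.pi),
      fourier n (x + ((2 * Real.pi / 2 / n : ℝ) : AddCircle (2 * Real.pi))) = -fourier n x :=
    fun x => fourier_add_half_inv_index hn Real.two_pi_pos x
  have h2 := integral_add_right_eq_self (μ := (volume : Measure (AddCircle (2 * Real.pi))))
    (fun x => (fourier n x : ℂ)) ((2 * Real.pi / 2 / n : ℝ) : AddCircle (2 * Real.pi))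
  simp only [h1] at h2
  rw [integral_neg] at h2
  have h3 : (2 : ℂ) * ∫ x : AddCircle (2 * Real.pi), fourier n x = 0 := by
    linear_combination -h2
  simpa using h3

lemma int_chi {d : ℕ} (a : Fin d → ℤ) :
    ∫ x : Torus d, chi a x = if a = 0 then ((2 * Real.pi : ℝ) : ℂ) ^ d else 0 := by
  unfold chi
  rw [integral_fintype_prod_volume_eq_prod (fun i (y : AddCircle (2 * Real.pi)) => (fourier (a i) y : ℂ))]
  split_ifs with h
  · subst h
    have : ∀ i : Fin d, ∫ x : AddCircle (2 * Real.pi), (fourier ((0 : Fin d → ℤ) i) x : ℂ) =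
        ((2 * Real.pi : ℝ) : ℂ) := by
      intro i
      simp only [Pi.zero_apply, fourier_zero]
      rw [integral_const, Measure.real, AddCircle.measure_univ,
        ENNReal.toReal_ofReal Real.two_pi_pos.le]
      simp
    rw [Finset.prod_congr rfl (fun i _ => this i)]
    simp
  · obtain ⟨i, hi⟩ := Function.ne_iff.1 h
    exact Finset.prod_eq_zero (Finset.mem_univ i) (int_fourier _ hi)

lemma cont_integrable {d : ℕ} {F : Type} [NormedAddCommGroup F] (f : Torus d → F)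
    (hf : Continuous f) : Integrable f := by
  rw [← integrableOn_univ]
  exact hf.continuousOn.integrableOn_compact isCompact_univ

lemma int_normSq {d : ℕ} {ι : Type} (S : Finset ι) (c : ι → ℂ) (a : ι → Fin d → ℤ)
    (ha : Function.Injective a) :
    ∫ x : Torus d, ‖∑ k ∈ S, c k * chi (a k) x‖ ^ 2 = (2 * Real.pi) ^ d * ∑ k ∈ S, ‖c k‖ ^ 2 := by
  classical
  have hint : ∀ (k l : ι), Integrable (fun x : Torus d =>
      c k * (starRingEnd ℂ) (c l) * chi (a k - a l) x) := fun k l =>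
    cont_integrable _ (continuous_const.mul (chi_cont _))
  have h1 : ∀ x : Torus d, ((‖∑ k ∈ S, c k * chi (a k) x‖ ^ 2 : ℝ) : ℂ) =
      ∑ k ∈ S, ∑ l ∈ S, c k * (starRingEnd ℂ) (c l) * chi (a k - a l) x := by
    intro x
    rw [← Complex.normSq_eq_norm_sq, ← Complex.mul_conj, map_sum, Finset.sum_mul_sum]
    refine Finset.sum_congr rfl (fun k _ => Finset.sum_congr rfl (fun l _ => ?_))
    rw [← chi_conj, map_mul]; ring
  have h2 : ((∫ x : Torus d, ‖∑ k ∈ S, c k * chi (a k) x‖ ^ 2 : ℝ) : ℂ) =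
      (((2 * Real.pi) ^ d * ∑ k ∈ S, ‖c k‖ ^ 2 : ℝ) : ℂ) := by
    rw [← integral_complex_ofReal]
    simp only [h1]
    rw [integral_finsetSum _ (fun k _ => integrable_finsetSum _ (fun l _ => hint k l))]
    have h3 : ∀ k ∈ S, ∫ x : Torus d, ∑ l ∈ S, c k * (starRingEnd ℂ) (c l) * chi (a k - a l) x =
        ((2 * Real.pi : ℝ) : ℂ) ^ d * ((‖c k‖ ^ 2 : ℝ) : ℂ) := by
      intro k hk
      rw [integral_finsetSum _ (fun l _ => hint k l)]
      have h4 : ∀ l ∈ S, ∫ x : Torus d, c k * (starRingEnd ℂ) (c l) * chi (a k - a l) x =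
          if l = k then ((2 * Real.pi : ℝ) : ℂ) ^ d * ((‖c k‖ ^ 2 : ℝ) : ℂ) else 0 := by
        intro l _
        rw [integral_const_mul, int_chi]
        by_cases h : l = k
        · subst h
          rw [if_pos rfl, sub_self, if_pos rfl, Complex.mul_conj, Complex.normSq_eq_norm_sq]
          ring
        · have : a k - a l ≠ 0 := by
            intro h'
            exact h (ha (sub_eq_zero.1 h').symm)
          rw [if_neg this, if_neg h, mul_zero]
      rw [Finset.sum_congr rfl h4, Finset.sum_ite_eq' S k, if_pos hk]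
    rw [Finset.sum_congr rfl h3, ← Finset.mul_sum]
    push_cast
    rfl
  exact_mod_cast h2

/-! ### the Laplacian of a trigonometric polynomial -/

section lap

variable {d : ℕ}

/-- the linear functional `i a·y` -/
noncomputable def lin (a : Fin d → ℤ) : EuclideanSpace ℝ (Fin d) →L[ℝ] ℂ :=
  ∑ i, (Complex.I * (a i : ℂ)) • (Complex.ofRealCLM.comp (EuclideanSpace.proj i : EuclideanSpace ℝ (Fin d) →L[ℝ] ℝ))

lemma lin_apply (a : Fin d → ℤ) (y : EuclideanSpace ℝ (Fin d)) :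
    lin a y = Complex.I * ∑ i, (a i : ℂ) * ((y i : ℝ) : ℂ) := by
  unfold lin
  rw [_root_.sum_apply, Finset.mul_sum]
  refine Finset.sum_congr rfl (fun i _ => ?_)
  simp
  ring

lemma lap_sum {ι : Type} (S : Finset ι) (c : ι → ℂ) (a : ι → Fin d → ℤ)
    (x : EuclideanSpace ℝ (Fin d)) :
    Laplacian.laplacian (fun y : EuclideanSpace ℝ (Fin d) =>
      ∑ k ∈ S, c k * Complex.exp (lin (a k) y)) x =
      -∑ k ∈ S, ((∑ i, (a k i : ℂ) ^ 2)) * (c k * Complex.exp (lin (a k) x)) := by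
  have h1 : ∀ y : EuclideanSpace ℝ (Fin d), HasFDerivAt (fun y : EuclideanSpace ℝ (Fin d) =>
      ∑ k ∈ S, c k * Complex.exp (lin (a k) y))
      (∑ k ∈ S, (c k * Complex.exp (lin (a k) y)) • lin (a k)) y := by
    intro y
    apply HasFDerivAt.fun_sum
    intro k _
    have h2 := ((lin (a k)).hasFDerivAt (x := y)).cexp.const_mul (c k)
    refine h2.congr_fderiv ?_
    rw [smul_smul]
  have h2 : fderiv ℝ (fun y : EuclideanSpace ℝ (Fin d) =>
      ∑ k ∈ S, c k * Complex.exp (lin (a k) y)) =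
      fun y => ∑ k ∈ S, (c k * Complex.exp (lin (a k) y)) • lin (a k) := by
    funext y
    exact (h1 y).fderiv
  have h3 : ∀ v : EuclideanSpace ℝ (Fin d),
      iteratedFDeriv ℝ 2 (fun y : EuclideanSpace ℝ (Fin d) =>
      ∑ k ∈ S, c k * Complex.exp (lin (a k) y)) x ![v, v] =
      ∑ k ∈ S, (c k * Complex.exp (lin (a k) x)) * (lin (a k) v) ^ 2 := by
    intro v
    rw [iteratedFDeriv_two_apply, h2]
    have h4 : HasFDerivAt (fun y : EuclideanSpace ℝ (Fin d) =>
        ∑ k ∈ S, (c k * Complex.exp (lin (a k) y)) • lin (a k))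
        (∑ k ∈ S, ((c k * Complex.exp (lin (a k) x)) • lin (a k)).smulRight (lin (a k))) x := by
      apply HasFDerivAt.fun_sum
      intro k _
      have h5 := ((lin (a k)).hasFDerivAt (x := x)).cexp.const_mul (c k)
      have h6 := h5.smul_const (lin (a k))
      refine h6.congr_fderiv ?_
      rw [smul_smul]
    rw [h4.fderiv]
    simp only [Matrix.cons_val_zero, Matrix.cons_val_one, _root_.sum_apply,
      ContinuousLinearMap.smulRight_apply, _root_.smul_apply, smul_eq_mul]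
    refine Finset.sum_congr rfl (fun k _ => ?_)
    ring
  rw [InnerProductSpace.laplacian_eq_iteratedFDeriv_orthonormalBasis _
    (EuclideanSpace.basisFun (Fin d) ℝ)]
  simp only [h3]
  rw [Finset.sum_comm, ← Finset.sum_neg_distrib]
  refine Finset.sum_congr rfl (fun k _ => ?_)
  have h7 : ∀ i : Fin d, lin (a k) (EuclideanSpace.basisFun (Fin d) ℝ i) = Complex.I * (a k i : ℂ) := by
    intro i
    rw [lin_apply]
    congr 1
    rw [Finset.sum_eq_single i]
    · simp
    · intro j _ hj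
      simp [EuclideanSpace.basisFun_apply, hj]
    · simp
  simp only [h7, mul_pow, Complex.I_sq]
  rw [← Finset.mul_sum, ← Finset.mul_sum]
  ring

lemma smooth_sum {ι : Type} (S : Finset ι) (c : ι → ℂ) (a : ι → Fin d → ℤ) :
    ContDiff ℝ ∞ (fun y : EuclideanSpace ℝ (Fin d) =>
      ∑ k ∈ S, c k * Complex.exp (lin (a k) y)) := by
  refine ContDiff.sum (fun k _ => contDiff_const.mul ?_)
  exact (lin (a k)).contDiff.cexp

end lap

/-! ### the eigenfunctions -/

section main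

open Pool.Agent.W796.QL

variable {E n : ℕ}

/-- the profile `∑ c_k e^{i k·x'}` as a function on the torus of dimension `E+2`,
and its multiples by `e^{i m x_0}` -/
noncomputable def fam (E n : ℕ) (c : (Fin (E + 1) → ℤ) → ℂ) (m : ℕ) (x : Torus (E + 2)) : ℂ :=
  ∑ k ∈ Sph (E + 1) n, c k * chi (Fin.cons (m : ℤ) k) x

lemma fam_cont (c : (Fin (E + 1) → ℤ) → ℂ) (m : ℕ) : Continuous (fam E n c m) := by
  unfold fam
  exact continuous_finsetSum _ (fun k _ => continuous_const.mul (chi_cont _))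

lemma chi_cons (m : ℤ) (k : Fin (E + 1) → ℤ) (x : Torus (E + 2)) :
    chi (Fin.cons m k) x = fourier m (x 0) * chi (Fin.cons 0 k) x := by
  have h : ∀ m : ℤ, chi (Fin.cons m k) x = fourier m (x 0) * ∏ i : Fin (E + 1), fourier (k i) (x i.succ) := by
    intro m
    unfold chi
    rw [Fin.prod_univ_succ]
    simp only [Fin.cons_zero, Fin.cons_succ]
  rw [h m, h 0, fourier_zero, one_mul]

lemma fam_norm (c : (Fin (E + 1) → ℤ) → ℂ) (m : ℕ) (x : Torus (E + 2)) :
    ‖fam E n c m x‖ = ‖fam E n c 0 x‖ := by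
  have h : fam E n c m x = fourier (m : ℤ) (x 0) * fam E n c 0 x := by
    unfold fam
    rw [Finset.mul_sum]
    refine Finset.sum_congr rfl (fun k _ => ?_)
    rw [chi_cons]
    push_cast
    ring
  rw [h, norm_mul, fourier_apply, Circle.norm_coe, one_mul]

lemma fam_proj (c : (Fin (E + 1) → ℤ) → ℂ) (m : ℕ) (y : EuclideanSpace ℝ (Fin (E + 2))) :
    fam E n c m (proj y) =
      ∑ k ∈ Sph (E + 1) n, c k * Complex.exp (lin (Fin.cons (m : ℤ) k) y) := by
  unfold fam
  refine Finset.sum_congr rfl (fun k _ => ?_)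
  rw [chi_proj, lin_apply]

lemma fam_eigen (c : (Fin (E + 1) → ℤ) → ℂ) (m : ℕ) :
    Eigen (E + 2) (Real.sqrt ((m : ℝ) ^ 2 + n)) (fam E n c m) := by
  constructor
  · simp only [fam_proj]
    exact smooth_sum _ _ _
  · intro x
    simp only [fam_proj]
    rw [lap_sum, neg_neg, Finset.mul_sum]
    refine Finset.sum_congr rfl (fun k hk => ?_)
    congr 1
    rw [Real.sq_sqrt (by positivity), Fin.sum_univ_succ]
    simp only [Fin.cons_zero, Fin.cons_succ]
    rw [mem_Sph] at hk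
    have h1 : ∑ i, (k i : ℂ) ^ 2 = n := by exact_mod_cast congrArg (fun z : ℤ => (z : ℂ)) hk
    rw [h1]
    push_cast
    ring

lemma fam_int (c : (Fin (E + 1) → ℤ) → ℂ) (hc : ∑ k ∈ Sph (E + 1) n, ‖c k‖ ^ 2 = 1) (m : ℕ) :
    ⨍ x : Torus (E + 2), ‖fam E n c m x‖ ^ 2 = 1 := by
  rw [average_eq]
  have h1 := int_normSq (Sph (E + 1) n) c (fun k => (Fin.cons (m : ℤ) k : Fin (E + 2) → ℤ))
    (fun k k' h => Fin.cons_right_injective (α := fun _ => ℤ) (m : ℤ) h)
  have h2 : ∫ x : Torus (E + 2), ‖fam E n c m x‖ ^ 2 = (2 * Real.pi) ^ (E + 2) := by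
    rw [hc, mul_one] at h1
    exact h1
  rw [h2]
  have h3 : (volume : Measure (Torus (E + 2))).real Set.univ = (2 * Real.pi) ^ (E + 2) := by
    rw [Measure.real, volume_pi, Measure.pi_univ]
    simp only [AddCircle.measure_univ, Finset.prod_const, Finset.card_univ, Fintype.card_fin]
    rw [ENNReal.toReal_pow, ENNReal.toReal_ofReal Real.two_pi_pos.le]
  rw [h3, smul_eq_mul]
  have : (0 : ℝ) < (2 * Real.pi) ^ (E + 2) := by positivity
  field_simp

/-- the quantum limit `|fam|² dx` -/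
noncomputable def lim (E n : ℕ) (c : (Fin (E + 1) → ℤ) → ℂ) : Measure (Torus (E + 2)) :=
  volume.withDensity (fun x => ENNReal.ofReal (‖fam E n c 0 x‖ ^ 2))

lemma lim_quantum (c : (Fin (E + 1) → ℤ) → ℂ) (hc : ∑ k ∈ Sph (E + 1) n, ‖c k‖ ^ 2 = 1) :
    IsQuantumLimit (E + 2) (lim E n c) := by
  have hcont : Continuous (fun x : Torus (E + 2) => ‖fam E n c 0 x‖ ^ 2) :=
    (fam_cont c 0).norm.pow 2
  have hint : Integrable (fun x : Torus (E + 2) => ‖fam E n c 0 x‖ ^ 2) :=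
    cont_integrable _ hcont
  refine ⟨isFiniteMeasure_withDensity_ofReal hint.2,
    fun m => Real.sqrt ((m : ℝ) ^ 2 + n), fun m => fam E n c m, ?_, ?_, fun m => fam_eigen c m,
    fun m => fam_int c hc m, ?_⟩
  · intro m
    refine ⟨Real.sqrt_nonneg _, m ^ 2 + n, ?_⟩
    rw [Real.sq_sqrt (by positivity)]
    push_cast
    ring
  · refine tendsto_atTop_mono (fun m => ?_) tendsto_natCast_atTop_atTop
    apply Real.le_sqrt_of_sq_le
    have : (0 : ℝ) ≤ n := Nat.cast_nonneg n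
    linarith
  · intro φ
    have h1 : ∀ m : ℕ, ∫ x : Torus (E + 2), φ x * ‖fam E n c m x‖ ^ 2 =
        ∫ x, φ x ∂(lim E n c) := by
      intro m
      unfold lim
      rw [integral_withDensity_eq_integral_toReal_smul₀]
      · refine integral_congr_ae (Eventually.of_forall (fun x => ?_))
        simp only [fam_norm c m x]
        rw [ENNReal.toReal_ofReal (by positivity), smul_eq_mul, mul_comm]
      · exact (hcont.measurable.ennreal_ofReal).aemeasurable
      · exact Eventually.of_forall (fun x => ENNReal.ofReal_lt_top)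
    simp only [h1]
    exact tendsto_const_nhds

lemma ballT_open (d : ℕ) (r : ℝ) : IsOpen (ballT d r) := by
  have h1 : IsOpenMap (fun (y : Fin d → ℝ) (i : Fin d) => ((y i : ℝ) : AddCircle (2 * Real.pi))) :=
    IsOpenMap.piMap (fun _ => QuotientAddGroup.isOpenMap_coe) (Eventually.of_forall (fun _ => Quotient.mk_surjective))
  have h2 : IsOpenMap (proj (d := d)) :=
    h1.comp (EuclideanSpace.equiv (Fin d) ℝ).toHomeomorph.isOpenMap
  exact h2 _ Metric.isOpen_ball

lemma lim_ball (c : (Fin (E + 1) → ℤ) → ℂ) (b r : ℝ) (hb : 0 ≤ b)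
    (h : ∀ x ∈ ballT (E + 2) r, ‖fam E n c 0 x‖ ^ 2 ≤ b) :
    (lim E n c (ballT (E + 2) r)).toReal / (volume (ballT (E + 2) r)).toReal ≤ b := by
  have hfin : volume (ballT (E + 2) r) ≠ ⊤ := measure_ne_top _ _
  have h1 : lim E n c (ballT (E + 2) r) ≤ ENNReal.ofReal b * volume (ballT (E + 2) r) := by
    unfold lim
    rw [withDensity_apply' _ _]
    calc ∫⁻ x in ballT (E + 2) r, ENNReal.ofReal (‖fam E n c 0 x‖ ^ 2)
        ≤ ∫⁻ _ in ballT (E + 2) r, ENNReal.ofReal b := by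
          exact setLIntegral_mono' (ballT_open _ _).measurableSet
            (fun x hx => ENNReal.ofReal_le_ofReal (h x hx))
      _ = _ := by rw [setLIntegral_const]
  have h2 : (lim E n c (ballT (E + 2) r)).toReal ≤ b * (volume (ballT (E + 2) r)).toReal := by
    have := ENNReal.toReal_mono (ENNReal.mul_ne_top ENNReal.ofReal_ne_top hfin) h1
    rwa [ENNReal.toReal_mul, ENNReal.toReal_ofReal hb] at this
  rcases (ENNReal.toReal_nonneg (a := volume (ballT (E + 2) r))).eq_or_lt with h0 | h0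
  · rw [← h0, div_zero]; exact hb
  · rwa [div_le_iff₀ h0]

lemma mInf_le (c : (Fin (E + 1) → ℤ) → ℂ) (hc : ∑ k ∈ Sph (E + 1) n, ‖c k‖ ^ 2 = 1) (b r : ℝ)
    (hb : 0 ≤ b) (h : ∀ x ∈ ballT (E + 2) r, ‖fam E n c 0 x‖ ^ 2 ≤ b) : mInf (E + 2) r ≤ b := by
  unfold mInf
  have hmem : (lim E n c (ballT (E + 2) r)).toReal / (volume (ballT (E + 2) r)).toReal ∈
      {t : ℝ | ∃ μ : Measure (Torus (E + 2)), IsQuantumLimit (E + 2) μ ∧
        t = (μ (ballT (E + 2) r)).toReal / (volume (ballT (E + 2) r)).toReal} :=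
    ⟨_, lim_quantum c hc, rfl⟩
  refine (csInf_le ⟨0, ?_⟩ hmem).trans (lim_ball c b r hb h)
  rintro t ⟨μ, _, rfl⟩
  positivity

lemma main (hE : E = 2 ∨ E = 3) :
    ∃ c r0 : ℝ, 0 < c ∧ 0 < r0 ∧ r0 < 1 ∧ ∀ r : ℝ, 0 < r → r < r0 →
      mInf (E + 2) r ≤ Real.exp (-(c * Real.log (Real.log (1 / r)) * r⁻¹ ^ (E - 1))) := by
  obtain ⟨c, r0, hc, hr0, hr01, H⟩ := Pool.Agent.Y131.QL.params E hE
  refine ⟨c, r0, hc, hr0, hr01, fun r hr hrr => ?_⟩
  obtain ⟨n, q, hq, hqr, hfin⟩ := H r hr hrr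
  obtain ⟨a, ha1, ha2⟩ := exists_coeff (E := E) (n := n) q hq
  refine le_trans ?_ hfin
  apply mInf_le a ha1 _ r (by positivity)
  rintro _ ⟨y, hy, rfl⟩
  rw [fam_proj]
  have h1 : ∑ k ∈ Sph (E + 1) n, a k * Complex.exp (lin (Fin.cons ((0 : ℕ) : ℤ) k) y) =
      ∑ k ∈ Sph (E + 1) n, a k * Complex.exp (Complex.I * ∑ i, (k i : ℂ) * ((y i.succ : ℝ) : ℂ)) := by
    refine Finset.sum_congr rfl (fun k _ => ?_)
    rw [lin_apply, Fin.sum_univ_succ]
    simp
  rw [h1]
  apply small q a ha1 ha2 (fun i => y i.succ)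
  have h2 : Real.sqrt (∑ i : Fin (E + 1), y i.succ ^ 2) ≤ r := by
    rw [mem_ball_zero_iff, EuclideanSpace.norm_eq] at hy
    refine le_trans (Real.sqrt_le_sqrt ?_) hy.le
    rw [Fin.sum_univ_succ (n := E + 1)]
    simp only [Real.norm_eq_abs, sq_abs]
    nlinarith [sq_nonneg (y 0)]
  calc 10 * (Real.sqrt n * Real.sqrt (∑ i : Fin (E + 1), y i.succ ^ 2))
      ≤ 10 * (Real.sqrt n * r) := by gcongr
    _ ≤ q := hqr

end main

lemma gain (d : ℕ) (hd : d = 4 ∨ d = 5) :
    ∃ c r0 : ℝ, 0 < c ∧ 0 < r0 ∧ r0 < 1 ∧ ∀ r : ℝ, 0 < r → r < r0 →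
      mInf d r ≤ Real.exp (-(c * Real.log (Real.log (1 / r)) * r ^ (3 - (d : ℝ)))) := by
  rcases hd with rfl | rfl
  · obtain ⟨c, r0, hc, h0, h1, H⟩ := main (E := 2) (Or.inl rfl)
    refine ⟨c, r0, hc, h0, h1, fun r hr hrr => ?_⟩
    have h3 : r ^ (3 - ((4 : ℕ) : ℝ)) = r⁻¹ ^ (2 - 1) := by
      rw [show (3 - ((4 : ℕ) : ℝ)) = -1 by norm_num, Real.rpow_neg_one]
      simp
    rw [h3]
    exact H r hr hrr
  · obtain ⟨c, r0, hc, h0, h1, H⟩ := main (E := 3) (Or.inr rfl)
    refine ⟨c, r0, hc, h0, h1, fun r hr hrr => ?_⟩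
    have h3 : r ^ (3 - ((5 : ℕ) : ℝ)) = r⁻¹ ^ (3 - 1) := by
      rw [show (3 - ((5 : ℕ) : ℝ)) = -((2 : ℕ) : ℝ) by norm_num, Real.rpow_neg hr.le,
        Real.rpow_natCast]
      simp
    rw [h3]
    exact H r hr hrr

/-- For `d = 4` and `d = 5` there are `c > 0` and `r₀ ∈ (0,1)` such that for every `r ∈ (0, r₀)`
one has `m_d(r) ≤ exp(-c log log (1/r) r^(3-d))`. In particular, for all `c, C > 0` one has
`m_d(r) < c exp(-C r^(3-d))` for every sufficiently small `r`. -/
theorem result (d : ℕ) (hd : d = 4 ∨ d = 5) :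
    (∃ c r0 : ℝ, 0 < c ∧ 0 < r0 ∧ r0 < 1 ∧ ∀ r : ℝ, 0 < r → r < r0 →
      mInf d r ≤ Real.exp (-(c * Real.log (Real.log (1 / r)) * r ^ (3 - (d : ℝ))))) ∧
    ∀ c C : ℝ, 0 < c → 0 < C → ∃ r1 : ℝ, 0 < r1 ∧ r1 < 1 ∧ ∀ r : ℝ, 0 < r → r < r1 →
      mInf d r < c * Real.exp (-(C * r ^ (3 - (d : ℝ)))) := by
  obtain ⟨c', r0, hc', hr0, hr01, H⟩ := gain d hd
  refine ⟨⟨c', r0, hc', hr0, hr01, H⟩, fun c C hc _ => ?_⟩
  obtain ⟨K, hK⟩ : ∃ K : ℝ, K = (C + |Real.log c| + 1) / c' := ⟨_, rfl⟩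
  refine ⟨min r0 (Real.exp (-Real.exp K)), lt_min hr0 (Real.exp_pos _),
    lt_of_le_of_lt (min_le_left _ _) hr01, fun r hr hrr => ?_⟩
  have h1 : r < r0 := lt_of_lt_of_le hrr (min_le_left _ _)
  have h2 : r < Real.exp (-Real.exp K) := lt_of_lt_of_le hrr (min_le_right _ _)
  refine lt_of_le_of_lt (H r hr h1) ?_
  have h3 : Real.exp K < Real.log (1 / r) := by
    rw [Real.lt_log_iff_exp_lt (by positivity), lt_div_iff₀ hr]
    rw [Real.exp_neg] at h2
    have h4 : 0 < Real.exp (Real.exp K) := Real.exp_pos _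
    calc Real.exp (Real.exp K) * r < Real.exp (Real.exp K) * (Real.exp (Real.exp K))⁻¹ :=
          mul_lt_mul_of_pos_left h2 h4
      _ = 1 := mul_inv_cancel₀ h4.ne'
  have h5 : K < Real.log (Real.log (1 / r)) := by
    rw [Real.lt_log_iff_exp_lt ((Real.exp_pos _).trans h3)]
    exact h3
  have hx : 1 ≤ r ^ (3 - (d : ℝ)) := by
    apply Real.one_le_rpow_of_pos_of_le_one_of_nonpos hr (by linarith)
    rcases hd with rfl | rfl <;> norm_num
  have h6 : C + |Real.log c| + 1 < c' * Real.log (Real.log (1 / r)) := by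
    rw [hK, div_lt_iff₀ hc'] at h5
    linarith
  have h7 : (C + |Real.log c| + 1) * r ^ (3 - (d : ℝ)) ≤
      c' * Real.log (Real.log (1 / r)) * r ^ (3 - (d : ℝ)) :=
    mul_le_mul_of_nonneg_right h6.le (by linarith)
  have h8 : |Real.log c| ≤ |Real.log c| * r ^ (3 - (d : ℝ)) :=
    le_mul_of_one_le_right (abs_nonneg _) hx
  have h9 := neg_abs_le (Real.log c)
  calc Real.exp (-(c' * Real.log (Real.log (1 / r)) * r ^ (3 - (d : ℝ))))
      < Real.exp (Real.log c + -(C * r ^ (3 - (d : ℝ)))) := by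
        apply Real.exp_lt_exp.2
        linarith
    _ = c * Real.exp (-(C * r ^ (3 - (d : ℝ)))) := by
        rw [Real.exp_add, Real.exp_log hc]

end Pool.Agent.Results.MP_9fa340_an.LogLogGain
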